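import Pool.Agent.P.MP_1157dd_an.N.Ent3
import Pool.Agent.P.MP_1157dd_an.N.FinA

open Matrix Pool.Agent.P.MP_1157dd_an.N

namespace Pool.Agent.Results.MP_1157dd_an.Entropy

/-- A half colouring lemma for several families of matrices, inside a subspace. -/
theorem result :
    ∃ C : ℝ, ∀ (d n m : ℕ) (A : Fin m → Fin n → Matrix (Fin d) (Fin d) ℝ) (σ l : Fin m → ℝ)
      (W : Submodule ℝ (Fin n → ℝ)) (x₀ : Fin n → ℝ), (∀ k, 0 < σ k) → (∀ k, 1 ≤ l k) →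
      (∀ k, opNorm (∑ i, A k i * (A k i)ᵀ) ≤ σ k ^ 2) →
      (∀ k, opNorm (∑ i, (A k i)ᵀ * A k i) ≤ σ k ^ 2) →
      ∑ k, (∑ i, frobSq (A k i)) / σ k ^ 2 * Real.exp (-l k ^ 2) ≤ n →
      7 * n ≤ 8 * Module.finrank ℝ W → (∀ i, |x₀ i| ≤ 1) →
      ∃ x : Fin n → ℝ, (∀ i, |x i| ≤ 1) ∧ x - x₀ ∈ W ∧
        n ≤ 2 * (Finset.univ.filter fun i => |x i| = 1).card ∧
        ∀ k, opNorm (∑ i, (x i - x₀ i) • A k i) ≤ C * l k * σ k :=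
  p_FB p_ENT

end Pool.Agent.Results.MP_1157dd_an.Entropy
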