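import Pool.Agent.P.MP_1157dd_an.N.Ent3
import Pool.Agent.P.MP_1157dd_an.N.Norms
import Pool.Agent.P.MP_1157dd_an.N.Rand
import Pool.Agent.P.MP_1157dd_an.N.Split
import Pool.Agent.P.MP_1157dd_an.N.FinB

open Pool.Agent.P.MP_1157dd_an.N
open scoped ENNReal

namespace Pool.Agent.Results.MP_1157dd_an.InitialSums

/-- One sign vector that balances all initial sums in the Schatten `p`-norm, `2 ≤ p ≤ ∞`. -/
theorem result :
    ∃ C : ℝ, ∀ (p : ℝ≥0∞), 2 ≤ p →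
      ∀ (d n : ℕ) (A : Fin n → Matrix (Fin d) (Fin d) ℝ), (∀ i, schatten p (A i) ≤ 1) →
      ∃ ε : Fin n → ℝ, (∀ i, ε i = 1 ∨ ε i = -1) ∧ ∀ t : ℕ,
        schatten p (∑ i ∈ Finset.univ.filter fun i : Fin n => (i : ℕ) < t, ε i • A i) ≤
          C * √(n * (min p (ENNReal.ofReal (max 1 (Real.log ((d : ℝ) / n))))).toReal) := by
  have hSCH := p_SCH p_LP (p_JEN p_LP) p_SV
  exact p_FD p_LP hSCH (p_VAR p_LP (p_JEN p_LP) p_SV hSCH)
    (p_ENTS p_LP p_SV (p_CNT p_SV) (p_LAY p_LP) p_ENT)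
    (p_NCKS p_LP (p_JEN p_LP) p_SV p_NCK) p_LEVY p_CHAIN p_ROUNDS

end Pool.Agent.Results.MP_1157dd_an.InitialSums
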