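import Pool.Agent.P.MP_1157dd_an.K.Kom
import Pool.Agent.P.MP_1157dd_an.K.Fin

open Pool.Agent.P.MP_1157dd_an.N
open scoped ENNReal

namespace Pool.Agent.Results.MP_1157dd_an.Schatten

/-- Sign vectors from the Schatten `p`-norm to the Schatten `q`-norm, `2 ≤ p ≤ q ≤ ∞`. -/
theorem result :
    ∃ C : ℝ, ∀ (p q : ℝ≥0∞), 2 ≤ p → p ≤ q →
      ∀ (m n : ℕ) (A : Fin n → Matrix (Fin m) (Fin m) ℝ), (∀ i, schatten p (A i) ≤ 1) →
      ∃ ε : Fin n → ℝ, (∀ i, ε i = 1 ∨ ε i = -1) ∧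
        schatten q (∑ i, ε i • A i) ≤
          C * √(n * (min p (ENNReal.ofReal (max 1 (Real.log ((m : ℝ) / n))))).toReal) *
            (min 1 ((m : ℝ) / n)) ^ (p.toReal⁻¹ - q.toReal⁻¹) := by
  open Pool.Agent.P.MP_1157dd_an.K in
  exact p_FE p_FIN p_GEO (p_BAN (p_KOMS p_PAR (p_KOM p_DET p_SQ p_CORE (p_OPT p_PAR)) p_LAY2)
    p_SPL2 p_RED)

end Pool.Agent.Results.MP_1157dd_an.Schatten
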