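import Pool.Agent.P.MP_1157dd_an.N.Ent3
import Pool.Agent.P.MP_1157dd_an.N.Norms
import Pool.Agent.P.MP_1157dd_an.N.Rand
import Pool.Agent.P.MP_1157dd_an.N.FinA

open Matrix Pool.Agent.P.MP_1157dd_an.N

namespace Pool.Agent.Results.MP_1157dd_an.Variance

/-- Matrix Spencer in terms of the variance and the total squared Frobenius norm. -/
theorem result :
    ∃ C : ℝ, ∀ (d n : ℕ) (A : Fin n → Matrix (Fin d) (Fin d) ℝ) (σ : ℝ), 0 < σ →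
      (∀ i, opNorm (A i) ≤ 1) →
      opNorm (∑ i, A i * (A i)ᵀ) ≤ σ ^ 2 → opNorm (∑ i, (A i)ᵀ * A i) ≤ σ ^ 2 →
      ∃ ε : Fin n → ℝ, (∀ i, ε i = 1 ∨ ε i = -1) ∧
        opNorm (∑ i, ε i • A i) ≤ C * σ * max 1 √(Real.log ((∑ i, frobSq (A i)) / σ ^ 4)) :=
  p_FA p_LP (p_SCH p_LP (p_JEN p_LP) p_SV) p_ENT p_DEEP
    (p_NCKS p_LP (p_JEN p_LP) p_SV p_NCK) p_ROUNDS

end Pool.Agent.Results.MP_1157dd_an.Variance
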